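import Pool.Agent.helper62.VN.SpecE
import Pool.Agent.helper27.VQE.ALP

/-!
# Row vne:NLC (MP_07c750_an): local coordinates
-/

set_option autoImplicit false

open scoped MatrixGroups ContDiff Topology UpperHalfPlane
open UpperHalfPlane MeasureTheory Filter Set

namespace Pool.Agent.VNE

open Pool.Agent.RS Pool.Agent.VQE

noncomputable section

theorem NLC_mul {X X' Y Y' : Matrix (Fin 2) (Fin 2) ℝ} {x dx y dy : ℝ} (hX' : ALP_B X' x) (hY : ALP_B Y y)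
    (hX : ALP_B (X - X') dx) (hY' : ALP_B (Y - Y') dy) : ALP_B (X * Y - X' * Y') (2 * dx * y + 2 * x * dy) := by
  have h := ALP_B_add (ALP_B_mul hX hY) (ALP_B_mul hX' hY')
  have h2 : (X - X') * Y + X' * (Y - Y') = X * Y - X' * Y' := by noncomm_ring
  rwa [h2] at h

theorem NLC_prod {a b c a' b' c' : Matrix (Fin 2) (Fin 2) ℝ} {r m : ℝ} (ha' : ALP_B a' r)
    (hb : ALP_B b r) (hb' : ALP_B b' r) (hc : ALP_B c r) (hA : ALP_B (a - a') m)
    (hB : ALP_B (b - b') m) (hC : ALP_B (c - c') m) :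
    ALP_B ((1 + a) * (1 + b) * (1 + c) - (1 + a') * (1 + b') * (1 + c') - ((a - a') + (b - b') + (c - c')))
      (12 * r * m + 12 * r ^ 2 * m) := by
  have h1 := NLC_mul ha' hb hA hB
  have h2 := NLC_mul ha' hc hA hC
  have h3 := NLC_mul hb' hc hB hC
  have h4 := NLC_mul (ALP_B_mul ha' hb') hc h1 hC
  have h5 := ALP_B_add (ALP_B_add (ALP_B_add h1 h2) h3) h4
  have h6 : (a * b - a' * b') + (a * c - a' * c') + (b * c - b' * c') + (a * b * c - a' * b' * c') =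
      (1 + a) * (1 + b) * (1 + c) - (1 + a') * (1 + b') * (1 + c') - ((a - a') + (b - b') + (c - c')) := by
    noncomm_ring
  rw [h6] at h5
  refine ALP_B_mono h5 (le_of_eq ?_)
  ring

theorem NLC_comp {X Y Z : Type*} [TopologicalSpace X] [TopologicalSpace Y] [TopologicalSpace Z] (G : Y → Z)
    (φ : X → Y) (s : Set X) (t : Set Y) (hG : ContinuousOn G t) (hφ : ContinuousOn φ s)
    (h : ∀ x ∈ s, φ x ∈ t) : ContinuousOn (fun x => G (φ x)) s := hG.comp hφ h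

theorem NLC_cF (f : ℝ → SL(2, ℝ) → SL(2, ℝ)) (cf : Continuous (fun x : ℝ × SL(2, ℝ) => f x.1 x.2)) :
    Continuous (fun x : SL(2, ℝ) × (Fin 3 → ℝ) => ((f (x.2 0) x.1, x.2 1) : SL(2, ℝ) × ℝ)) := by
  have h1 : Continuous (fun x : SL(2, ℝ) × (Fin 3 → ℝ) => ((x.2 0, x.1) : ℝ × SL(2, ℝ))) := by fun_prop
  have h2 : Continuous (fun x : SL(2, ℝ) × (Fin 3 → ℝ) => f (x.2 0) x.1) := cf.comp h1
  have h3 : Continuous (fun x : SL(2, ℝ) × (Fin 3 → ℝ) => x.2 1) := by fun_prop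
  exact h2.prodMk h3

theorem NLC_real {K n p p' m m' J s : ℝ} (hK : 1 ≤ K) (hn : 0 ≤ n) (hp : 1 / K ≤ p) (hp2 : p ≤ K) (hp' : 1 / K ≤ p')
    (hm : |m| ≤ K) (h1 : |p' - p| ≤ K * n) (h2 : |m' - m| ≤ K * n) (hs : |s| = 1) :
    |(1 + s * m') * J / p' - (1 + s * m) * J / p| ≤ 3 * K ^ 4 * n * |J| := by
  have hK0 : 0 < K := by linarith
  have hp0 : 0 < p := lt_of_lt_of_le (by positivity) hp
  have hp0' : 0 < p' := lt_of_lt_of_le (by positivity) hp'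
  have e1 : (1 + s * m') * J / p' - (1 + s * m) * J / p =
      J * ((s * (m' - m)) * p + (1 + s * m) * (p - p')) * (1 / p * (1 / p')) := by
    field_simp
    ring
  rw [e1, abs_mul, abs_mul]
  have i1 : |1 / p * (1 / p')| ≤ K * K := by
    rw [abs_of_pos (by positivity)]
    have j1 : 1 / p ≤ K := by
      rw [div_le_iff₀ hp0]
      calc 1 = K * (1 / K) := by field_simp
        _ ≤ K * p := mul_le_mul_of_nonneg_left hp hK0.le
    have j2 : 1 / p' ≤ K := by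
      rw [div_le_iff₀ hp0']
      calc 1 = K * (1 / K) := by field_simp
        _ ≤ K * p' := mul_le_mul_of_nonneg_left hp' hK0.le
    exact mul_le_mul j1 j2 (by positivity) hK0.le
  have i2 : |(s * (m' - m)) * p + (1 + s * m) * (p - p')| ≤ 3 * K ^ 2 * n := by
    have k1 : |(s * (m' - m)) * p| ≤ K * n * K := by
      rw [abs_mul, abs_mul, hs, one_mul, abs_of_pos hp0]
      exact mul_le_mul h2 hp2 hp0.le (by positivity)
    have k2 : |(1 + s * m) * (p - p')| ≤ (1 + K) * (K * n) := by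
      rw [abs_mul]
      refine mul_le_mul ?_ (by rwa [abs_sub_comm]) (abs_nonneg _) (by positivity)
      refine (abs_add_le _ _).trans ?_
      rw [abs_mul, hs, one_mul, abs_one]
      linarith
    refine (abs_add_le _ _).trans ?_
    have k3 : 0 ≤ K * n := by positivity
    nlinarith
  calc |J| * |(s * (m' - m)) * p + (1 + s * m) * (p - p')| * |1 / p * (1 / p')|
      ≤ |J| * (3 * K ^ 2 * n) * (K * K) := by
        refine mul_le_mul (mul_le_mul_of_nonneg_left i2 (abs_nonneg _)) i1 (abs_nonneg _) (by positivity)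
    _ = 3 * K ^ 4 * n * |J| := by ring

theorem NLC_bcE {K : ℝ} (hK : 1 ≤ K) {X : Fd} (hX : HF K X) (hn : ∀ D, 0 ≤ nm D) (g E : SL(2, ℝ)) (J W : ℝ) :
    |bj X (g * E) J W - bj X g J W| ≤ 3 * K ^ 4 * nm E * |J| ∧
    |cj X (g * E) J W - cj X g J W| ≤ 3 * K ^ 4 * nm E * |J| := by
  obtain ⟨l1, -, l3, -⟩ := hX.lip g E
  constructor
  · have h := NLC_real (J := J) (s := 1) hK (hn E) (hX.pb g).1 (hX.pb g).2 (hX.pb (g * E)).1 (hX.qb g).2.1 l1 l3 (by simp)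
    have e : bj X (g * E) J W - bj X g J W = -(((1 + 1 * X.m (g * E)) * J / X.p (g * E) - (1 + 1 * X.m g) * J / X.p g) / 2) := by
      unfold bj
      ring
    rw [e, abs_neg, abs_div, abs_of_pos (by norm_num : (0 : ℝ) < 2)]
    have := abs_nonneg ((1 + 1 * X.m (g * E)) * J / X.p (g * E) - (1 + 1 * X.m g) * J / X.p g)
    linarith
  · have h := NLC_real (J := J) (s := -1) hK (hn E) (hX.pb g).1 (hX.pb g).2 (hX.pb (g * E)).1 (hX.qb g).2.1 l1 l3 (by simp)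
    have e : cj X (g * E) J W - cj X g J W = -(((1 + -1 * X.m (g * E)) * J / X.p (g * E) - (1 + -1 * X.m g) * J / X.p g) / 2) := by
      unfold cj
      ring
    rw [e, abs_neg, abs_div, abs_of_pos (by norm_num : (0 : ℝ) < 2)]
    have := abs_nonneg ((1 + -1 * X.m (g * E)) * J / X.p (g * E) - (1 + -1 * X.m g) * J / X.p g)
    linarith

/-- the properties of `stn` and `unn` -/
structure NLC_P (c ρ : ℝ) (σ : SL(2, ℝ) → ℝ → ℝ) : Prop where
  a : ∀ (g : SL(2, ℝ)) (j : ℝ), |j| ≤ ρ → |σ g j| ≤ c * |j|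
  b : ∀ (g : SL(2, ℝ)) (j j' : ℝ), |j| ≤ ρ → |j'| ≤ ρ → |σ g j - σ g j'| ≤ c * |j - j'|
  d : ∀ (g E : SL(2, ℝ)) (j : ℝ), |j| ≤ ρ → |σ (g * E) j - σ g j| ≤ c * |j| * nm E
  e : ∀ (g : SL(2, ℝ)) (r j1 j2 j3 j4 : ℝ), r ≤ ρ → |j1| ≤ r → |j2| ≤ r → |j3| ≤ r → |j4| ≤ r →
    |(σ g j1 - σ g j2) * (j3 - j4) - (σ g j3 - σ g j4) * (j1 - j2)| ≤ c * r * (|j1 - j2| * |j3 - j4|)

theorem NLC_P.e2 {c ρ : ℝ} {σ : SL(2, ℝ) → ℝ → ℝ} (hσ : NLC_P c ρ σ) (g : SL(2, ℝ)) (r j1 j2 : ℝ) (hr : 0 < r) (hρ : r ≤ ρ)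
    (h1 : |j1| ≤ r) (h2 : |j2| ≤ r) : |(σ g j1 - σ g j2) * r - σ g r * (j1 - j2)| ≤ c * r * (|j1 - j2| * r) := by
  have h := hσ.e g r j1 j2 r 0 hρ h1 h2 (by rw [abs_of_pos hr]) (by rw [abs_zero]; exact hr.le)
  have h0 : σ g 0 = 0 := by
    have h3 := hσ.a g 0 (by rw [abs_zero]; linarith)
    rw [abs_zero, mul_zero] at h3
    exact abs_nonpos_iff.1 h3
  rwa [h0, sub_zero, sub_zero, abs_of_pos hr] at h

theorem NLC_P.rev {c ρ : ℝ} {s : SL(2, ℝ) → ℝ → ℝ} (hs : NLC_P c ρ s) (hJ : ∀ D, nm (kJ⁻¹ * D * kJ) = nm D) :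
    NLC_P c ρ (fun g y => s (g * kJ) (-y)) := by
  refine ⟨?_, ?_, ?_, ?_⟩
  · intro g j hj
    have := hs.a (g * kJ) (-j) (by rwa [abs_neg])
    rwa [abs_neg] at this
  · intro g j j' hj hj'
    have := hs.b (g * kJ) (-j) (-j') (by rwa [abs_neg]) (by rwa [abs_neg])
    rwa [show -j - -j' = -(j - j') by ring, abs_neg] at this
  · intro g E j hj
    have := hs.d (g * kJ) (kJ⁻¹ * E * kJ) (-j) (by rwa [abs_neg])
    rwa [abs_neg, hJ, show g * kJ * (kJ⁻¹ * E * kJ) = g * E * kJ by group] at this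
  · intro g r j1 j2 j3 j4 hr h1 h2 h3 h4
    have := hs.e (g * kJ) r (-j1) (-j2) (-j3) (-j4) hr (by rwa [abs_neg]) (by rwa [abs_neg]) (by rwa [abs_neg])
      (by rwa [abs_neg])
    rw [show -j1 - -j2 = -(j1 - j2) by ring, show -j3 - -j4 = -(j3 - j4) by ring, abs_neg, abs_neg, mul_neg, mul_neg,
      ← neg_sub', abs_neg] at this
    exact this

/-- the middle value -/
theorem NLC_sig {c ρ : ℝ} {σ : SL(2, ℝ) → ℝ → ℝ} (hn : ∀ D, 0 ≤ nm D) (hσ : NLC_P c ρ σ) (hc : 1 ≤ c) {c1 r m : ℝ} (hc1 : 1 ≤ c1) (hr : 0 < r)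
    (hrρ : r ≤ ρ) (hcr : c1 * r ≤ 1) (g D h E : SL(2, ℝ)) (y y' : ℝ) (hh : h = g * D) (hD : nm D ≤ c1 * r) (hE : nm E ≤ c1 * m) (hy : |y| ≤ r)
    (hy' : |y'| ≤ r) (hm : |y - y'| ≤ m) :
    |σ h y - σ (h * E) y'| ≤ 2 * c * m ∧
    |σ h y - σ (h * E) y' - σ g r / r * (y - y')| ≤ 3 * c * c1 * r * m := by
  have hm0 : 0 ≤ m := (abs_nonneg _).trans hm
  have h1 := hσ.b h y y' (hy.trans hrρ) (hy'.trans hrρ)
  have h2 := hσ.d h E y' (hy'.trans hrρ)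
  have h3 := hσ.e2 h r y y' hr hrρ hy hy'
  have h4 := hσ.d g D r (by rwa [abs_of_pos hr])
  rw [← hh, abs_of_pos hr] at h4
  have h2' : |σ (h * E) y' - σ h y'| ≤ c * c1 * r * m := by
    refine h2.trans ?_
    have : c * |y'| * nm E ≤ c * r * (c1 * m) :=
      mul_le_mul (mul_le_mul_of_nonneg_left hy' (by linarith)) hE (hn E) (by positivity)
    linarith
  have h2'' : c * c1 * r * m ≤ c * m := by
    have : c * m * (c1 * r) ≤ c * m * 1 := mul_le_mul_of_nonneg_left hcr (by positivity)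
    linarith
  constructor
  · have e1 : σ h y - σ (h * E) y' = (σ h y - σ h y') - (σ (h * E) y' - σ h y') := by ring
    rw [e1]
    refine (abs_sub _ _).trans ?_
    have : c * |y - y'| ≤ c * m := mul_le_mul_of_nonneg_left hm (by linarith)
    linarith
  · have e1 : σ h y - σ (h * E) y' - σ g r / r * (y - y') = (((σ h y - σ h y') * r - σ h r * (y - y')) / r +
        (σ h r - σ g r) / r * (y - y')) - (σ (h * E) y' - σ h y') := by
      field_simp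
      ring
    rw [e1]
    refine (abs_sub _ _).trans ?_
    have k1 : |((σ h y - σ h y') * r - σ h r * (y - y')) / r| ≤ c * r * m := by
      rw [abs_div, abs_of_pos hr, div_le_iff₀ hr]
      refine h3.trans ?_
      have : c * r * (|y - y'| * r) ≤ c * r * (m * r) :=
        mul_le_mul_of_nonneg_left (mul_le_mul_of_nonneg_right hm hr.le) (by positivity)
      linarith
    have k2 : |(σ h r - σ g r) / r * (y - y')| ≤ c * c1 * r * m := by
      rw [abs_mul, abs_div, abs_of_pos hr]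
      have k3 : |σ h r - σ g r| / r ≤ c * c1 * r := by
        rw [div_le_iff₀ hr]
        refine h4.trans ?_
        have : c * r * nm D ≤ c * r * (c1 * r) := mul_le_mul_of_nonneg_left hD (by positivity)
        linarith
      exact mul_le_mul k3 hm (abs_nonneg _) (by positivity)
    have k4 := abs_add_le (((σ h y - σ h y') * r - σ h r * (y - y')) / r) ((σ h r - σ g r) / r * (y - y'))
    have k5 : c * r * m ≤ c * c1 * r * m := by
      have : c * r * m * 1 ≤ c * r * m * c1 := mul_le_mul_of_nonneg_left hc1 (by positivity)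
      linarith
    linarith

/-- the chart, as in NCH -/
def NLC_N (C : ℝ) (X : Fd) : Prop :=
  (∀ (g : SL(2, ℝ)) (J W : ℝ), |bj X g J W| ≤ C * (|J| + |W|) ∧ |cj X g J W| ≤ C * (|J| + |W|)) ∧
  (∀ (g : SL(2, ℝ)) (J W : ℝ), |J| + |W| ≤ 1 / C → nm (pj X g J W) ≤ C * (|J| + |W|)) ∧
  (∀ (g E : SL(2, ℝ)) (J W J' W' : ℝ), |J| + |W| ≤ 1 / C → |J'| + |W'| ≤ 1 / C →
    (∀ i j, |(pj X (g * E) J' W').1 i j - (pj X g J W).1 i j| ≤ C * (|J - J'| + |W - W'| + nm E * (|J| + |W|))) ∧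
    (∀ i, |(pj X (g * E) J' W').1 i i - (pj X g J W).1 i i| ≤ C * (|J| + |W| + |J'| + |W'|) * (|J - J'| + |W - W'| + nm E * (|J| + |W|))))

theorem NLC_ofNCH {K C : ℝ} {X : Fd} (h : HF K X)
    (hC : ∀ X : Fd, HF K X →
  (∀ (g : SL(2, ℝ)) (J W : ℝ), -(X.p g * (bj X g J W + cj X g J W)) = J ∧ (bj X g J W - cj X g J W) - X.m g * (bj X g J W + cj X g J W) = W ∧
    |bj X g J W| ≤ C * (|J| + |W|) ∧ |cj X g J W| ≤ C * (|J| + |W|)) ∧
  (∀ (g : SL(2, ℝ)) (b c : ℝ), bj X g (-(X.p g * (b + c))) ((b - c) - X.m g * (b + c)) = b ∧ cj X g (-(X.p g * (b + c))) ((b - c) - X.m g * (b + c)) = c ∧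
    |-(X.p g * (b + c))| + |(b - c) - X.m g * (b + c)| ≤ C * (|b| + |c|)) ∧
  (∀ g : SL(2, ℝ), FJ X g 0 0 = 0 ∧ FW X g 0 0 = 0) ∧
  (∀ (g : SL(2, ℝ)) (J W : ℝ), |J| + |W| ≤ 1 / C → nm (pj X g J W) ≤ C * (|J| + |W|) ∧ |J| + |W| ≤ C * nm (pj X g J W) ∧ |sj X g J W - 1| ≤ C * (|J| + |W|) ∧
    |(pj X g J W).1 0 0 - 1| ≤ C * (|J| + |W|) ^ 2 ∧ (pj X g J W).1 0 0 = (pj X g J W).1 1 1) ∧
  (∀ (g E : SL(2, ℝ)) (J W J' W' : ℝ), |J| + |W| ≤ 1 / C → |J'| + |W'| ≤ 1 / C →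
    (∀ i j, |(pj X (g * E) J' W').1 i j - (pj X g J W).1 i j| ≤ C * (|J - J'| + |W - W'| + nm E * (|J| + |W|))) ∧
    (∀ i, |(pj X (g * E) J' W').1 i i - (pj X g J W).1 i i| ≤ C * (|J| + |W| + |J'| + |W'|) * (|J - J'| + |W - W'| + nm E * (|J| + |W|))) ∧
    nm ((pj X g J W)⁻¹ * pj X (g * E) J' W') ≤ C * (|J - J'| + |W - W'| + nm E * (|J| + |W|))) ∧
  Continuous X.p ∧ Continuous X.q ∧ Continuous X.m ∧ Continuous X.κ ∧
  ∀ (T : ℝ) (g : SL(2, ℝ)) (J W : ℝ → ℝ), ContinuousOn J (Icc 0 T) → ContinuousOn W (Icc 0 T) → (∀ t ∈ Icc (0 : ℝ) T, |J t| + |W t| ≤ 1 / C) →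
    ContinuousOn (fun t => sj X (X.f t g) (J t) (W t)) (Icc 0 T) ∧ ContinuousOn (fun t => FJ X (X.f t g) (J t) (W t)) (Icc 0 T) ∧ ContinuousOn (fun t => FW X (X.f t g) (J t) (W t)) (Icc 0 T)) :
    NLC_N C X := by
  obtain ⟨a1, -, -, a4, a5, -⟩ := hC X h
  exact ⟨fun g J W => ⟨(a1 g J W).2.2.1, (a1 g J W).2.2.2⟩, fun g J W hJ => (a4 g J W hJ).1,
    fun g E J W J' W' h1 h2 => ⟨(a5 g E J W J' W' h1 h2).1, (a5 g E J W J' W' h1 h2).2.1⟩⟩

/-- one factor -/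
theorem NLC_one {K C1 c c1 : ℝ} (hK : 1 ≤ K) (hC1 : 1 ≤ C1) (hc : 1 ≤ c) (hc1 : 1 ≤ c1) {X : Fd} (hX : HF K X) (hN : NLC_N C1 X)
    (hn : ∀ D, 0 ≤ nm D) {ρ : ℝ} {σ : SL(2, ℝ) → ℝ → ℝ} (hσ : NLC_P c ρ σ) {C r m : ℝ}
    (hC : C = 20 * C1 * c ^ 2 + 9 * K ^ 4 * c * c1 + c1) (hr : 0 < r) (hrρ : r ≤ ρ) (hCr : C * r ≤ 1)
    (g D h E : SL(2, ℝ)) (y y' : ℝ) (hh : h = g * D) (hD : nm D ≤ c1 * r) (hE : nm E ≤ c1 * m) (hy : |y| ≤ r)
    (hy' : |y'| ≤ r) (hm : |y - y'| ≤ m) (B B' : SL(2, ℝ)) (hB : B = pj X h y (σ h y)) (hB' : B' = pj X (h * E) y' (σ (h * E) y')) :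
    nm B ≤ C * r ∧ nm B' ≤ C * r ∧ ALP_B (B.1 - B'.1) (C * m) ∧
    |B.1 0 1 - B'.1 0 1 - (y - y') * bj X g 1 (σ g r / r)| ≤ C * r * m ∧
    |B.1 1 0 - B'.1 1 0 - (y - y') * cj X g 1 (σ g r / r)| ≤ C * r * m ∧
    ∀ i, |B.1 i i - B'.1 i i| ≤ C * r * m := by
  have hm0 : 0 ≤ m := (abs_nonneg _).trans hm
  have hK4 : 1 ≤ K ^ 4 := one_le_pow₀ hK
  have hK0 : 0 < K := by linarith
  have hc2 : c ≤ c ^ 2 := by nlinarith
  have hcc : 1 ≤ c * c1 := by nlinarith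
  have t1 : 0 ≤ 20 * C1 * c ^ 2 := by positivity
  have t2 : 0 ≤ 9 * K ^ 4 * c * c1 := by positivity
  have hc1C : c1 ≤ C := by rw [hC]; linarith
  have h20C : 20 * C1 * c ^ 2 ≤ C := by rw [hC]; linarith
  have h8C : 9 * K ^ 4 * c * c1 ≤ C := by rw [hC]; linarith
  have hc1r : c1 * r ≤ 1 := (mul_le_mul_of_nonneg_right hc1C hr.le).trans hCr
  have h20r : 20 * C1 * c ^ 2 * r ≤ 1 := (mul_le_mul_of_nonneg_right h20C hr.le).trans hCr
  have hCc : C1 * c ≤ C1 * c ^ 2 := mul_le_mul_of_nonneg_left hc2 (by linarith)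
  have hCcr : 20 * (C1 * c * r) ≤ 1 := by
    have : C1 * c * r ≤ C1 * c ^ 2 * r := mul_le_mul_of_nonneg_right hCc hr.le
    linarith
  obtain ⟨N1, N2, N3⟩ := hN
  obtain ⟨s1, s2⟩ := NLC_sig hn hσ hc hc1 hr hrρ hc1r g D h E y y' hh hD hE hy hy' hm
  set w := σ h y with hw
  set w' := σ (h * E) y' with hw'
  have a1 : |w| ≤ c * r := (hσ.a h y (hy.trans hrρ)).trans (mul_le_mul_of_nonneg_left hy (by linarith))
  have a2 : |w'| ≤ c * r := (hσ.a (h * E) y' (hy'.trans hrρ)).trans (mul_le_mul_of_nonneg_left hy' (by linarith))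
  have a3 : |y| + |w| ≤ 2 * c * r := by nlinarith
  have a4 : |y'| + |w'| ≤ 2 * c * r := by nlinarith
  have hcr0 : 0 ≤ c * r := by positivity
  have a5 : 2 * c * r ≤ 1 / C1 := by
    rw [le_div_iff₀ (by linarith)]
    nlinarith
  have a6 := N3 h E y w y' w' (a3.trans a5) (a4.trans a5)
  have a7 : |y - y'| + |w - w'| + nm E * (|y| + |w|) ≤ 5 * c * m := by
    have : nm E * (|y| + |w|) ≤ c1 * m * (2 * c * r) := mul_le_mul hE a3 (by positivity) (by positivity)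
    have h2 : c1 * m * (2 * c * r) = 2 * c * m * (c1 * r) := by ring
    have h3 : 2 * c * m * (c1 * r) ≤ 2 * c * m * 1 := mul_le_mul_of_nonneg_left hc1r (by positivity)
    have h4 : m ≤ c * m := by nlinarith
    linarith
  have a70 : 0 ≤ |y - y'| + |w - w'| + nm E * (|y| + |w|) := by
    have := hn E
    positivity
  have sw : ∀ i j, |B.1 i j - B'.1 i j| ≤ C1 * (5 * c * m) := by
    intro i j
    rw [abs_sub_comm, hB, hB']
    exact (a6.1 i j).trans (mul_le_mul_of_nonneg_left a7 (by linarith))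
  have C5 : C1 * (5 * c * m) ≤ C * m := by
    have e1 : C1 * (5 * c * m) = 5 * (C1 * c) * m := by ring
    rw [e1]
    refine mul_le_mul_of_nonneg_right ?_ hm0
    have : 0 ≤ C1 * c := by positivity
    linarith
  have b1 : ∀ (k : SL(2, ℝ)) (j v : ℝ), |j| + |v| ≤ 2 * c * r → |bj X k j v| ≤ 1 / 8 ∧ |cj X k j v| ≤ 1 / 8 := by
    intro k j v hjv
    have h1 := N1 k j v
    have h2 : C1 * (|j| + |v|) ≤ C1 * (2 * c * r) := mul_le_mul_of_nonneg_left hjv (by linarith)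
    have h3 : C1 * (2 * c * r) = 2 * (C1 * c * r) := by ring
    constructor
    · linarith [h1.1]
    · linarith [h1.2]
  have b2 : ∀ v : ℝ, v ≤ 2 * c * r → C1 * v ≤ C * r := by
    intro v hv
    have h2 : C1 * v ≤ C1 * (2 * c * r) := mul_le_mul_of_nonneg_left hv (by linarith)
    have h3 : C1 * (2 * c * r) = 2 * (C1 * c) * r := by ring
    have h4 : 2 * (C1 * c) * r ≤ C * r := by
      refine mul_le_mul_of_nonneg_right ?_ hr.le
      have : 0 ≤ C1 * c := by positivity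
      linarith
    linarith
  have EB : B.1 = !![√(1 + bj X h y w * cj X h y w), bj X h y w; cj X h y w, √(1 + bj X h y w * cj X h y w)] := by
    rw [hB]
    exact ALP_dg (b1 h y w a3).1 (b1 h y w a3).2
  have EB' : B'.1 = !![√(1 + bj X (h * E) y' w' * cj X (h * E) y' w'), bj X (h * E) y' w'; cj X (h * E) y' w',
      √(1 + bj X (h * E) y' w' * cj X (h * E) y' w')] := by
    rw [hB']
    exact ALP_dg (b1 (h * E) y' w' a4).1 (b1 (h * E) y' w' a4).2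
  have p1 := NLC_bcE hK hX hn g D (y - y') (w - w')
  rw [← hh] at p1
  have p2 := NLC_bcE hK hX hn h E y' w'
  have q1 : 3 * K ^ 4 * nm D * |y - y'| ≤ 3 * K ^ 4 * c1 * r * m := by
    have : 3 * K ^ 4 * nm D * |y - y'| ≤ 3 * K ^ 4 * (c1 * r) * m :=
      mul_le_mul (mul_le_mul_of_nonneg_left hD (by positivity)) hm (abs_nonneg _) (by positivity)
    linarith
  have q2 : 3 * K ^ 4 * nm E * |y'| ≤ 3 * K ^ 4 * c1 * r * m := by
    have : 3 * K ^ 4 * nm E * |y'| ≤ 3 * K ^ 4 * (c1 * m) * r :=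
      mul_le_mul (mul_le_mul_of_nonneg_left hE (by positivity)) hy' (abs_nonneg _) (by positivity)
    linarith
  have q3 : 3 * K ^ 4 * c1 * r * m + 3 * K ^ 4 * c1 * r * m + 3 * c * c1 * r * m ≤ C * r * m := by
    have e1 : 3 * K ^ 4 * c1 * r * m + 3 * K ^ 4 * c1 * r * m + 3 * c * c1 * r * m =
      (6 * K ^ 4 * c1 + 3 * c * c1) * (r * m) := by ring
    have e2 : C * r * m = C * (r * m) := by ring
    rw [e1, e2]
    refine mul_le_mul_of_nonneg_right ?_ (by positivity)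
    have e3 : K ^ 4 * c1 ≤ K ^ 4 * c * c1 := by
      have : K ^ 4 * c1 * 1 ≤ K ^ 4 * c1 * c := mul_le_mul_of_nonneg_left hc (by positivity)
      linarith
    have e4 : c * c1 ≤ K ^ 4 * c * c1 := by
      have : c * c1 * 1 ≤ c * c1 * K ^ 4 := mul_le_mul_of_nonneg_left hK4 (by positivity)
      linarith
    linarith
  refine ⟨?_, ?_, ?_, ?_, ?_, ?_⟩
  · rw [hB]
    exact (N2 h y w (a3.trans a5)).trans (b2 _ a3)
  · rw [hB']
    exact (N2 (h * E) y' w' (a4.trans a5)).trans (b2 _ a4)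
  · intro i j
    exact (sw i j).trans C5
  · rw [EB, EB']
    show |bj X h y w - bj X (h * E) y' w' - (y - y') * bj X g 1 (σ g r / r)| ≤ C * r * m
    have e1 : bj X h y w - bj X (h * E) y' w' - (y - y') * bj X g 1 (σ g r / r) =
        (bj X h (y - y') (w - w') - bj X g (y - y') (w - w')) - (bj X (h * E) y' w' - bj X h y' w') +
          (w - w' - σ g r / r * (y - y')) / 2 := by
      unfold bj
      ring
    rw [e1]
    refine (abs_add_le _ _).trans ?_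
    have e2 := abs_sub (bj X h (y - y') (w - w') - bj X g (y - y') (w - w')) (bj X (h * E) y' w' - bj X h y' w')
    have e3 : |(w - w' - σ g r / r * (y - y')) / 2| ≤ 3 * c * c1 * r * m := by
      rw [abs_div, abs_of_pos (by norm_num : (0 : ℝ) < 2)]
      have := abs_nonneg (w - w' - σ g r / r * (y - y'))
      linarith
    linarith [p1.1, p2.1]
  · rw [EB, EB']
    show |cj X h y w - cj X (h * E) y' w' - (y - y') * cj X g 1 (σ g r / r)| ≤ C * r * m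
    have e1 : cj X h y w - cj X (h * E) y' w' - (y - y') * cj X g 1 (σ g r / r) =
        (cj X h (y - y') (w - w') - cj X g (y - y') (w - w')) - (cj X (h * E) y' w' - cj X h y' w') -
          (w - w' - σ g r / r * (y - y')) / 2 := by
      unfold cj
      ring
    rw [e1]
    refine (abs_sub _ _).trans ?_
    have e2 := abs_sub (cj X h (y - y') (w - w') - cj X g (y - y') (w - w')) (cj X (h * E) y' w' - cj X h y' w')
    have e3 : |(w - w' - σ g r / r * (y - y')) / 2| ≤ 3 * c * c1 * r * m := by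
      rw [abs_div, abs_of_pos (by norm_num : (0 : ℝ) < 2)]
      have := abs_nonneg (w - w' - σ g r / r * (y - y'))
      linarith
    linarith [p1.2, p2.2]
  · intro i
    rw [abs_sub_comm, hB, hB']
    refine (a6.2 i).trans ?_
    have e1 : C1 * (|y| + |w| + |y'| + |w'|) ≤ C1 * (4 * c * r) :=
      mul_le_mul_of_nonneg_left (by linarith) (by linarith)
    have e2 := mul_le_mul e1 a7 a70 (by positivity)
    refine e2.trans ?_
    have e3 : C1 * (4 * c * r) * (5 * c * m) = (20 * C1 * c ^ 2) * r * m := by ring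
    rw [e3]
    exact mul_le_mul_of_nonneg_right (mul_le_mul_of_nonneg_right h20C hr.le) hm0

theorem NLC_nmE (hNMB : NMB_stmt) (B E B' : SL(2, ℝ)) {e d : ℝ} (hB : nm B ≤ 1) (hB' : nm B' ≤ 1) (hE : nm E ≤ e)
    (hd : ALP_B (B.1 - B'.1) d) : nm (B⁻¹ * E * B') ≤ 16 * e + 4 * d := by
  obtain ⟨n0, -, ninv, -⟩ := hNMB
  rw [ALP_nm]
  have b1 : ALP_B ((B⁻¹).1 - 1) 1 := by
    rw [← ALP_nm, ninv]
    exact hB
  have b2 : ALP_B (E.1 - 1) e := by
    rw [← ALP_nm]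
    exact hE
  have b3 : ALP_B (B'.1 - 1) 1 := by
    rw [← ALP_nm]
    exact hB'
  have b4 : ALP_B (B'.1 - B.1) d := by
    intro i j
    have := hd i j
    rw [Matrix.sub_apply, abs_sub_comm] at this
    rw [Matrix.sub_apply]
    exact this
  have hC : (B⁻¹).1 * B.1 = 1 := congrArg Subtype.val (inv_mul_cancel B)
  have b5 := ALP_B_add (ALP_B_add (ALP_B_add (ALP_B_add (ALP_B_mul b1 b2) (ALP_B_mul b2 b3))
    (ALP_B_mul (ALP_B_mul b1 b2) b3)) b4) (ALP_B_mul b1 b4)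
  rw [← ALP_id _ _ _ _ hC] at b5
  have b6 := ALP_B_add b5 b2
  rw [sub_add_cancel] at b6
  refine ALP_B_mono b6 ?_
  have he := ALP_B_nonneg b2
  have hd0 := ALP_B_nonneg b4
  linarith

theorem NLC_dist (hNMB : NMB_stmt) (M M' : SL(2, ℝ)) {e : ℝ} (h : ALP_B (M'.1 - M.1) e) (hM : nm M ≤ 4) :
    nm (M⁻¹ * M') ≤ 9 * e := by
  obtain ⟨-, -, ninv, -⟩ := hNMB
  rw [ALP_nm]
  have D2' : ALP_B ((M⁻¹).1 - 1) 4 := by
    rw [← ALP_nm, ninv]
    exact hM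
  have D4 := ALP_B_add h (ALP_B_mul D2' h)
  have D5 : (M⁻¹ * M').1 - 1 = (M'.1 - M.1) + ((M⁻¹).1 - 1) * (M'.1 - M.1) := by
    have e1 : (M⁻¹).1 * M.1 = 1 := congrArg Subtype.val (inv_mul_cancel M)
    have e2 : (M⁻¹ * M').1 = (M⁻¹).1 * M'.1 := rfl
    have e3 : (M'.1 - M.1) + ((M⁻¹).1 - 1) * (M'.1 - M.1) = (M⁻¹).1 * M'.1 - (M⁻¹).1 * M.1 := by
      noncomm_ring
    rw [e3, e1, e2]
  rw [D5]
  refine ALP_B_mono D4 (le_of_eq ?_)
  ring

theorem NLC_sum {M M' a b c E ea eb ec : ℝ} (h : |M - M' - (a + b + c)| ≤ E) (ha : |a| ≤ ea) (hb : |b| ≤ eb) (hc : |c| ≤ ec) :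
    |M - M'| ≤ E + ea + eb + ec := by
  rw [abs_le] at *
  constructor <;> linarith [h.1, h.2, ha.1, ha.2, hb.1, hb.2, hc.1, hc.2]

theorem NLC_sum2 {M M' a b c l1 l2 l3 E e1 e2 e3 : ℝ} (h : |M - M' - (a + b + c)| ≤ E) (ha : |a - l1| ≤ e1) (hb : |b - l2| ≤ e2)
    (hc : |c - l3| ≤ e3) : |M - M' - (l1 + l2 + l3)| ≤ E + e1 + e2 + e3 := by
  rw [abs_le] at *
  constructor <;> linarith [h.1, h.2, ha.1, ha.2, hb.1, hb.2, hc.1, hc.2]

theorem NLC_Xm {K : ℝ} {X : Fd} (hX : HF K X) (hK : 1 ≤ K) (g : SL(2, ℝ)) (i j : Fin 2) : |Xm X g i j| ≤ K := by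
  have h1 := (hX.pb g).2
  have h2 := (hX.pb g).1
  have h3 := (hX.qb g).1
  have h4 : 0 < X.p g := lt_of_lt_of_le (by positivity) h2
  have h5 := abs_le.1 h3
  unfold Xm
  fin_cases i <;> fin_cases j
  · show |X.p g / 2| ≤ K
    rw [abs_le]
    constructor <;> linarith
  · show |-(X.q g)| ≤ K
    rwa [abs_neg]
  · exact h3
  · show |-(X.p g / 2)| ≤ K
    rw [abs_le]
    constructor <;> linarith

theorem NLC_est {K C1 C2 c : ℝ} (hK : 1 ≤ K) (hC1 : 1 ≤ C1) (hC2 : 1 ≤ C2) (hc : 1 ≤ c) {X : Fd} (hX : HF K X)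
    (hN : NLC_N C1 X) (hNMB : NMB_stmt)
    (hS : ∀ (g : SL(2, ℝ)) (r t t' : ℝ), r ≤ 1 / C2 → |t| ≤ r → |t'| ≤ r →
      nm (g⁻¹ * X.f t g) ≤ C2 * |t| ∧ ∀ i j, |(g⁻¹ * X.f t g).1 i j - (g⁻¹ * X.f t' g).1 i j - (t - t') * Xm X g i j| ≤ C2 * r * |t - t'|)
    {ρ : ℝ} {σ τ : SL(2, ℝ) → ℝ → ℝ} (hσ : NLC_P c ρ σ) (hτ : NLC_P c ρ τ) {D1 D2 D : ℝ}
    (hD1 : D1 = 20 * C1 * c ^ 2 + 9 * K ^ 4 * c * C2 + C2)
    (hD2 : D2 = 20 * C1 * c ^ 2 + 9 * K ^ 4 * c * (16 * C2 + 4 * D1) + (16 * C2 + 4 * D1)) (hD : D = D2 + K + 1)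
    {r : ℝ} (hr : 0 < r) (hrρ : r ≤ ρ) (hDr : 2 * D * r ≤ 1) (g : SL(2, ℝ)) (t y x t' y' x' m : ℝ)
    (ht : |t| ≤ r) (hy : |y| ≤ r) (hx : |x| ≤ r) (ht' : |t'| ≤ r) (hy' : |y'| ≤ r) (hx' : |x'| ≤ r)
    (mt : |t - t'| ≤ m) (my : |y - y'| ≤ m) (mx : |x - x'| ≤ m) (A A' B B' C C' h h' k k' : SL(2, ℝ))
    (hh : h = X.f t g) (hh' : h' = X.f t' g) (hA : A = g⁻¹ * h) (hA' : A' = g⁻¹ * h')
    (hB : B = pj X h y (σ h y)) (hB' : B' = pj X h' y' (σ h' y')) (hk : k = h * B) (hk' : k' = h' * B')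
    (hC : C = pj X k x (τ k x)) (hC' : C' = pj X k' x' (τ k' x')) :
    nm ((A * B * C)⁻¹ * (A' * B' * C')) ≤ 108 * D * m ∧
    ∀ i j, |(A * B * C).1 i j - (A' * B' * C').1 i j - ((t - t') * Xm X g i j +
      (y - y') * (!![0, bj X g 1 (σ g r / r); cj X g 1 (σ g r / r), 0] : Matrix (Fin 2) (Fin 2) ℝ) i j +
      (x - x') * (!![0, bj X g 1 (τ g r / r); cj X g 1 (τ g r / r), 0] : Matrix (Fin 2) (Fin 2) ℝ) i j)| ≤ 30 * D ^ 2 * r * m := by
  have hm : 0 ≤ m := (abs_nonneg _).trans mt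
  have hNMB' := hNMB
  obtain ⟨n0, -, ninv, nJ, nJ', nmul, -⟩ := hNMB
  have hK4 : 1 ≤ K ^ 4 := one_le_pow₀ hK
  have u1 : 0 ≤ 20 * C1 * c ^ 2 := by positivity
  have u2 : 0 ≤ 9 * K ^ 4 * c * C2 := by positivity
  have hD1C : C2 ≤ D1 := by rw [hD1]; linarith
  have hD10 : 1 ≤ D1 := by linarith
  have u3 : 0 ≤ 9 * K ^ 4 * c * (16 * C2 + 4 * D1) := by positivity
  have hD2C : 16 * C2 + 4 * D1 ≤ D2 := by rw [hD2]; linarith
  have hDD2 : D2 ≤ D := by rw [hD]; linarith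
  have hDD1 : D1 ≤ D := by linarith
  have hDC : C2 ≤ D := by linarith
  have hD0 : 1 ≤ D := by linarith
  have hDK : K + 1 ≤ D := by rw [hD]; linarith
  have hDr' : D * r ≤ 1 / 2 := by linarith
  have cr : ∀ {v : ℝ}, v ≤ D → v * r ≤ 1 / 2 := fun {v} hv => (mul_le_mul_of_nonneg_right hv hr.le).trans hDr'
  have h2r : 2 * r ≤ 1 / C2 := by
    rw [le_div_iff₀ (by linarith)]
    have := cr hDC
    linarith
  have h1r : r ≤ 1 / C2 := by linarith
  -- first factor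
  have A1 : nm A ≤ C2 * r := by
    rw [hA, hh]
    exact ((hS g r t t' h1r ht ht').1).trans (mul_le_mul_of_nonneg_left ht (by linarith))
  have A1' : nm A' ≤ C2 * r := by
    rw [hA', hh']
    exact ((hS g r t' t h1r ht' ht).1).trans (mul_le_mul_of_nonneg_left ht' (by linarith))
  have A2 : ∀ i j, |A.1 i j - A'.1 i j - (t - t') * Xm X g i j| ≤ C2 * r * m := by
    intro i j
    rw [hA, hA', hh, hh']
    exact ((hS g r t t' h1r ht ht').2 i j).trans (mul_le_mul_of_nonneg_left mt (by positivity))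
  have A3 : ALP_B (A.1 - A'.1) (D * m) := by
    intro i j
    rw [Matrix.sub_apply]
    have e1 := A2 i j
    have e2 : |(t - t') * Xm X g i j| ≤ m * K := by
      rw [abs_mul]
      exact mul_le_mul mt (NLC_Xm hX hK g i j) (abs_nonneg _) hm
    have e3 : |A.1 i j - A'.1 i j| ≤ |A.1 i j - A'.1 i j - (t - t') * Xm X g i j| + |(t - t') * Xm X g i j| := by
      have := abs_add_le (A.1 i j - A'.1 i j - (t - t') * Xm X g i j) ((t - t') * Xm X g i j)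
      rwa [sub_add_cancel] at this
    have e4 : C2 * r * m ≤ 1 * m := mul_le_mul_of_nonneg_right ((cr hDC).trans (by norm_num)) hm
    have e5 : (K + 1) * m ≤ D * m := mul_le_mul_of_nonneg_right hDK hm
    linarith
  have hE1 : nm (h⁻¹ * h') ≤ C2 * m := by
    have e1 : h' = X.f (t' - t) h := by
      rw [hh, hh', ← hX.flw.add, sub_add_cancel]
    rw [e1]
    have e2 : |t' - t| ≤ 2 * r := by
      have := abs_sub t' t
      linarith
    refine ((hS h (2 * r) (t' - t) (t' - t) h2r e2 e2).1).trans ?_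
    rw [abs_sub_comm]
    exact mul_le_mul_of_nonneg_left mt (by linarith)
  -- second factor
  have hgA : h = g * A := by
    rw [hA]
    group
  have hh'E : h * (h⁻¹ * h') = h' := by group
  have F1 := NLC_one hK hC1 hc hC2 hX hN n0 hσ hD1 hr hrρ ((cr hDD1).trans (by norm_num)) g A h (h⁻¹ * h') y y' hgA A1
    hE1 hy hy' my B B' hB (by rw [hh'E]; exact hB')
  obtain ⟨B1, B1', B2, B3, B4, B5⟩ := F1
  have hB1 : nm B ≤ 1 := B1.trans ((cr hDD1).trans (by norm_num))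
  have hB1' : nm B' ≤ 1 := B1'.trans ((cr hDD1).trans (by norm_num))
  -- third factor
  have hAB : nm (A * B) ≤ (16 * C2 + 4 * D1) * r := by
    refine (nmul A B).trans ?_
    have e1 : 2 * nm A * nm B ≤ 2 * (C2 * r) * 1 :=
      mul_le_mul (by linarith) hB1 (n0 B) (by positivity)
    have e2 : 0 ≤ C2 * r := by positivity
    have e3 : 0 ≤ D1 * r := by positivity
    linarith
  have hE2 : nm (k⁻¹ * k') ≤ (16 * C2 + 4 * D1) * m := by
    have e0 : k⁻¹ * k' = B⁻¹ * (h⁻¹ * h') * B' := by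
      rw [hk, hk']
      group
    rw [e0]
    refine (NLC_nmE hNMB' B (h⁻¹ * h') B' hB1 hB1' hE1 B2).trans ?_
    linarith
  have hgk : k = g * (A * B) := by
    rw [hk, hA]
    group
  have hkE : k * (k⁻¹ * k') = k' := by group
  have F2 := NLC_one hK hC1 hc (by linarith) hX hN n0 hτ hD2 hr hrρ ((cr hDD2).trans (by norm_num)) g (A * B) k
    (k⁻¹ * k') x x' hgk hAB hE2 hx hx' mx C C' hC (by rw [hkE]; exact hC')
  obtain ⟨G1, G1', G2, G3, G4, G5⟩ := F2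
  -- the product
  have dr : ∀ {v w : ℝ}, v ≤ w * r → w ≤ D → v ≤ D * r := fun {v w} hv hw =>
    hv.trans (mul_le_mul_of_nonneg_right hw hr.le)
  have a1 : ALP_B (A'.1 - 1) (D * r) := by
    rw [← ALP_nm]
    exact dr A1' hDC
  have a2 : ALP_B (B.1 - 1) (D * r) := by
    rw [← ALP_nm]
    exact dr B1 hDD1
  have a3 : ALP_B (B'.1 - 1) (D * r) := by
    rw [← ALP_nm]
    exact dr B1' hDD1
  have a4 : ALP_B (C.1 - 1) (D * r) := by
    rw [← ALP_nm]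
    exact dr G1 hDD2
  have B2' : ALP_B (B.1 - B'.1) (D * m) := ALP_B_mono B2 (mul_le_mul_of_nonneg_right hDD1 hm)
  have G2' : ALP_B (C.1 - C'.1) (D * m) := ALP_B_mono G2 (mul_le_mul_of_nonneg_right hDD2 hm)
  have P1 := NLC_prod (a := A.1 - 1) (b := B.1 - 1) (c := C.1 - 1) (a' := A'.1 - 1) (b' := B'.1 - 1)
    (c' := C'.1 - 1) (r := D * r) (m := D * m) a1 a2 a3 a4 (by rwa [sub_sub_sub_cancel_right])
    (by rwa [sub_sub_sub_cancel_right]) (by rwa [sub_sub_sub_cancel_right])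
  simp only [add_sub_cancel, sub_sub_sub_cancel_right] at P1
  have EM : (A * B * C).1 = A.1 * B.1 * C.1 := rfl
  have EM' : (A' * B' * C').1 = A'.1 * B'.1 * C'.1 := rfl
  rw [← EM, ← EM'] at P1
  have hDrm : 12 * (D * r) * (D * m) + 12 * (D * r) ^ 2 * (D * m) ≤ 18 * D ^ 2 * r * m := by
    have e1 : 12 * (D * r) ^ 2 * (D * m) = 12 * (D ^ 2 * r * m) * (D * r) := by ring
    have e2 : 12 * (D ^ 2 * r * m) * (D * r) ≤ 12 * (D ^ 2 * r * m) * (1 / 2) :=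
      mul_le_mul_of_nonneg_left hDr' (by positivity)
    have e3 : 12 * (D * r) * (D * m) = 12 * (D ^ 2 * r * m) := by ring
    rw [e1, e3]
    linarith
  have P2 : ∀ i j, |(A * B * C).1 i j - (A' * B' * C').1 i j - ((A.1 i j - A'.1 i j) + (B.1 i j - B'.1 i j) +
      (C.1 i j - C'.1 i j))| ≤ 18 * D ^ 2 * r * m := by
    intro i j
    have := P1 i j
    simp only [Matrix.sub_apply, Matrix.add_apply] at this
    exact this.trans hDrm
  have lin : ∀ {v : ℝ}, v ≤ D → v * r * m ≤ D * r * m := fun {v} hv =>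
    mul_le_mul_of_nonneg_right (mul_le_mul_of_nonneg_right hv hr.le) hm
  have hDD : D * r * m ≤ D ^ 2 * r * m := by
    have : D * (r * m) * 1 ≤ D * (r * m) * D := mul_le_mul_of_nonneg_left hD0 (by positivity)
    nlinarith
  have hB5 : ∀ i j, |B.1 i j - B'.1 i j - (y - y') *
      (!![0, bj X g 1 (σ g r / r); cj X g 1 (σ g r / r), 0] : Matrix (Fin 2) (Fin 2) ℝ) i j| ≤ D * r * m := by
    intro i j
    refine le_trans ?_ (lin hDD1)
    fin_cases i <;> fin_cases j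
    · show |B.1 0 0 - B'.1 0 0 - (y - y') * 0| ≤ _
      rw [mul_zero, sub_zero]
      exact B5 0
    · exact B3
    · exact B4
    · show |B.1 1 1 - B'.1 1 1 - (y - y') * 0| ≤ _
      rw [mul_zero, sub_zero]
      exact B5 1
  have hG5 : ∀ i j, |C.1 i j - C'.1 i j - (x - x') *
      (!![0, bj X g 1 (τ g r / r); cj X g 1 (τ g r / r), 0] : Matrix (Fin 2) (Fin 2) ℝ) i j| ≤ D * r * m := by
    intro i j
    refine le_trans ?_ (lin hDD2)
    fin_cases i <;> fin_cases j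
    · show |C.1 0 0 - C'.1 0 0 - (x - x') * 0| ≤ _
      rw [mul_zero, sub_zero]
      exact G5 0
    · exact G3
    · exact G4
    · show |C.1 1 1 - C'.1 1 1 - (x - x') * 0| ≤ _
      rw [mul_zero, sub_zero]
      exact G5 1
  constructor
  · -- the distance
    have D3 : ALP_B ((A' * B' * C').1 - (A * B * C).1) (12 * D * m) := by
      intro i j
      rw [Matrix.sub_apply, abs_sub_comm]
      have e2 := A3 i j
      have e3 := B2' i j
      have e4 := G2' i j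
      simp only [Matrix.sub_apply] at e2 e3 e4
      have e5 : 18 * D ^ 2 * r * m ≤ 9 * (D * m) := by
        have e6 : 18 * D ^ 2 * r * m = 18 * (D * m) * (D * r) := by ring
        have e7 : 18 * (D * m) * (D * r) ≤ 18 * (D * m) * (1 / 2) := mul_le_mul_of_nonneg_left hDr' (by positivity)
        rw [e6]
        linarith
      refine (NLC_sum (P2 i j) e2 e3 e4).trans ?_
      linarith
    have nAB : nm (A * B) ≤ 3 / 2 := by
      refine (nmul A B).trans ?_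
      have e3 : nm A ≤ 1 / 2 := A1.trans (cr hDC)
      have e4 : nm B ≤ 1 / 2 := B1.trans (cr hDD1)
      have e5 : nm A * nm B ≤ 1 / 2 * (1 / 2) := mul_le_mul e3 e4 (n0 B) (by norm_num)
      linarith
    have nM : nm (A * B * C) ≤ 4 := by
      refine (nmul (A * B) C).trans ?_
      have e3 : nm C ≤ 1 / 2 := G1.trans (cr hDD2)
      have e5 : nm (A * B) * nm C ≤ 3 / 2 * (1 / 2) := mul_le_mul nAB e3 (n0 C) (by norm_num)
      linarith
    refine (NLC_dist hNMB' (A * B * C) (A' * B' * C') D3 nM).trans (le_of_eq ?_)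
    ring
  · intro i j
    have e5 := lin hDC
    have e6 : 0 ≤ D ^ 2 * r * m := by positivity
    refine (NLC_sum2 (P2 i j) (A2 i j) (hB5 i j) (hG5 i j)).trans ?_
    linarith

theorem NLC_cont {ε : ℝ} {X : Fd} {ρ r : ℝ} (hrρ : r ≤ ρ) (hf : Flw X.p X.q X.f)
    (hU : ∀ (y : ℝ) (g : SL(2, ℝ)), UbN ε X y g = SbN ε (rX X) (-y) (g * kJ) * kJ⁻¹)
    (c1 : ContinuousOn (fun x : SL(2, ℝ) × ℝ => SbN ε X x.2 x.1) (univ ×ˢ Icc (-ρ) ρ))
    (c2 : ContinuousOn (fun x : SL(2, ℝ) × ℝ => SbN ε (rX X) x.2 x.1) (univ ×ˢ Icc (-ρ) ρ)) :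
    ContinuousOn (fun x : SL(2, ℝ) × (Fin 3 → ℝ) => psN ε X x.1 x.2) (univ ×ˢ cu r) := by
  have c4 : Continuous (fun x : SL(2, ℝ) × ℝ => ((x.1 * kJ, -x.2) : SL(2, ℝ) × ℝ)) := by
    fun_prop
  have c5 := NLC_comp (fun x : SL(2, ℝ) × ℝ => SbN ε (rX X) x.2 x.1)
    (fun x : SL(2, ℝ) × ℝ => ((x.1 * kJ, -x.2) : SL(2, ℝ) × ℝ)) (univ ×ˢ Icc (-ρ) ρ)
    (univ ×ˢ Icc (-ρ) ρ) c2 c4.continuousOn (by
      rintro ⟨g, b⟩ ⟨-, hb1, hb2⟩
      refine ⟨mem_univ _, ?_, ?_⟩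
      · show -ρ ≤ -b
        have : b ≤ ρ := hb2
        linarith
      · show -b ≤ ρ
        have : -ρ ≤ b := hb1
        linarith)
  have c6 : ContinuousOn (fun x : SL(2, ℝ) × ℝ => UbN ε X x.2 x.1) (univ ×ˢ Icc (-ρ) ρ) := by
    have h1 : (fun x : SL(2, ℝ) × ℝ => UbN ε X x.2 x.1) =
        fun x : SL(2, ℝ) × ℝ => SbN ε (rX X) (-x.2) (x.1 * kJ) * kJ⁻¹ := by
      funext x
      exact hU x.2 x.1
    rw [h1]
    exact c5.mul continuousOn_const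
  have c7 := NLC_comp (fun x : SL(2, ℝ) × ℝ => UbN ε X x.2 x.1)
    (fun x : SL(2, ℝ) × (Fin 3 → ℝ) => ((X.f (x.2 0) x.1, x.2 1) : SL(2, ℝ) × ℝ))
    (univ ×ˢ cu r) (univ ×ˢ Icc (-ρ) ρ) c6 (NLC_cF X.f hf.cont).continuousOn (by
      rintro ⟨g, z⟩ ⟨-, hz1, hz2⟩
      refine ⟨mem_univ _, ?_, ?_⟩
      · show -ρ ≤ z 1
        have : -r ≤ z 1 := hz1 1
        linarith
      · show z 1 ≤ ρ
        have : z 1 ≤ r := hz2 1
        linarith)
  have c8 : Continuous (fun x : SL(2, ℝ) × (Fin 3 → ℝ) => x.2 2) := by fun_prop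
  have c9 : ContinuousOn (fun x : SL(2, ℝ) × (Fin 3 → ℝ) =>
      ((UbN ε X (x.2 1) (X.f (x.2 0) x.1), x.2 2) : SL(2, ℝ) × ℝ)) (univ ×ˢ cu r) := c7.prodMk c8.continuousOn
  exact NLC_comp (fun x : SL(2, ℝ) × ℝ => SbN ε X x.2 x.1)
    (fun x : SL(2, ℝ) × (Fin 3 → ℝ) => ((UbN ε X (x.2 1) (X.f (x.2 0) x.1), x.2 2) : SL(2, ℝ) × ℝ))
    (univ ×ˢ cu r) (univ ×ˢ Icc (-ρ) ρ) c1 c9 (by
      rintro ⟨g, z⟩ ⟨-, hz1, hz2⟩
      refine ⟨mem_univ _, ?_, ?_⟩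
      · show -ρ ≤ z 2
        have : -r ≤ z 2 := hz1 2
        linarith
      · show z 2 ≤ ρ
        have : z 2 ≤ r := hz2 2
        linarith)

theorem NLC_proof (h1 : VQE.NMB_stmt) (h2 : NCH_stmt) (h3 : NSM_stmt) (h4 : NTP_stmt) (h5 : NRV_stmt) : NLC_stmt := by
  intro K hK
  obtain ⟨C1, hC1, hN⟩ := h2 K hK
  obtain ⟨C2, hC2, hS⟩ := h3 K hK
  obtain ⟨C3, ε3, hC3, hε3, hT⟩ := h4 K hK
  obtain ⟨D1, hD1⟩ : ∃ D1, D1 = 20 * C1 * C3 ^ 2 + 9 * K ^ 4 * C3 * C2 + C2 := ⟨_, rfl⟩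
  obtain ⟨D2, hD2⟩ : ∃ D2, D2 = 20 * C1 * C3 ^ 2 + 9 * K ^ 4 * C3 * (16 * C2 + 4 * D1) + (16 * C2 + 4 * D1) := ⟨_, rfl⟩
  obtain ⟨D, hD⟩ : ∃ D, D = D2 + K + 1 := ⟨_, rfl⟩
  have hD1p : 0 ≤ D1 := by rw [hD1]; positivity
  have hD2p : 0 ≤ D2 := by rw [hD2]; positivity
  have hD0 : 1 ≤ D := by rw [hD]; linarith
  have hDD : 1 ≤ D ^ 2 := one_le_pow₀ hD0
  have hDD' : D ≤ D ^ 2 := by nlinarith
  refine ⟨200 * D ^ 2 + C3, min ε3 1, by linarith, lt_min hε3 one_pos, ?_⟩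
  intro ε r X hε hεε hr hrε hX
  have hC0 : 0 < 200 * D ^ 2 + C3 := by positivity
  have hε1 : ε ≤ 1 := hεε.trans (min_le_right _ _)
  have hεε3 : ε ≤ ε3 := hεε.trans (min_le_left _ _)
  have hrρ : r ≤ ε / C3 := hrε.trans (div_le_div_of_nonneg_left hε.le (by linarith) (by nlinarith))
  have hCr : (200 * D ^ 2 + C3) * r ≤ 1 := by
    have := (le_div_iff₀ hC0).1 hrε
    linarith
  have hDr : 2 * D * r ≤ 1 := by
    refine le_trans (mul_le_mul_of_nonneg_right ?_ hr.le) hCr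
    linarith
  obtain ⟨hrX, -, hU⟩ := h5 K X hK hX
  obtain ⟨T1, T2, T3, T4, T5⟩ := hT ε X hε hεε3 hX
  obtain ⟨R1, R2, R3, R4, R5⟩ := hT ε (rX X) hε hεε3 hrX
  refine ⟨NLC_cont hrρ hX.flw (hU ε) T5 R5, ?_⟩
  have hτ : NLC_P C3 (ε / C3) (stn ε X) := ⟨fun g j hj => (T1 g j hj).2.1, T2, T3, T4⟩
  have hσ0 : NLC_P C3 (ε / C3) (stn ε (rX X)) := ⟨fun g j hj => (R1 g j hj).2.1, R2, R3, R4⟩
  have hσ : NLC_P C3 (ε / C3) (unn ε X) := hσ0.rev h1.2.2.2.2.1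
  intro g
  have hCC : ∀ v : ℝ, r ≤ C3 * v → v ≤ C3 * r → 1 / (200 * D ^ 2 + C3) ≤ v / r ∧ v / r ≤ 200 * D ^ 2 + C3 := by
    intro v hv1 hv2
    constructor
    · rw [div_le_div_iff₀ hC0 hr]
      have hv0 : 0 < v := by
        by_contra hv
        push Not at hv
        nlinarith
      nlinarith
    · rw [div_le_iff₀ hr]
      nlinarith
  have hus := T1 g r (by rwa [abs_of_pos hr])
  have huu := R1 (g * kJ) (-r) (by rwa [abs_neg, abs_of_pos hr])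
  rw [abs_of_pos hr] at hus
  rw [abs_neg, abs_of_pos hr] at huu
  have s1 : stn ε X g r ≤ 0 := by
    by_contra hs
    push Not at hs
    have := mul_pos hr hs
    linarith [hus.2.2.2]
  have s2 : 0 ≤ stn ε (rX X) (g * kJ) (-r) := by
    by_contra hs
    push Not at hs
    have := mul_pos_of_neg_of_neg (neg_lt_zero.2 hr) hs
    linarith [huu.2.2.2]
  rw [abs_of_nonpos s1] at hus
  rw [abs_of_nonneg s2] at huu
  have v1 := hCC (-stn ε X g r) hus.2.2.1 hus.2.1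
  have v2 := hCC (stn ε (rX X) (g * kJ) (-r)) huu.2.2.1 huu.2.1
  rw [neg_div] at v1
  refine ⟨stn ε X g r / r, unn ε X g r / r, v1.1, v1.2, v2.1, v2.2, ?_⟩
  intro z hz z' hz'
  have a : ∀ i, |z i| ≤ r := fun i => abs_le.2 ⟨hz.1 i, hz.2 i⟩
  have a' : ∀ i, |z' i| ≤ r := fun i => abs_le.2 ⟨hz'.1 i, hz'.2 i⟩
  have d : ∀ i, |z i - z' i| ≤ dist z z' := fun i => by
    rw [← Real.dist_eq]
    exact dist_le_pi_dist z z' i
  have key := NLC_est hK hC1 hC2 hC3 hX (NLC_ofNCH hX hN) h1 (hS X hX) hσ hτ hD1 hD2 hD hr hrρ hDr g (z 0) (z 1) (z 2)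
    (z' 0) (z' 1) (z' 2) (dist z z') (a 0) (a 1) (a 2) (a' 0) (a' 1) (a' 2) (d 0) (d 1) (d 2) _ _ _ _ _ _ _ _ _ _
    rfl rfl rfl rfl rfl rfl rfl rfl rfl rfl
  have E1 : ∀ w : Fin 3 → ℝ, g⁻¹ * psN ε X g w = g⁻¹ * X.f (w 0) g * pj X (X.f (w 0) g) (w 1) (unn ε X (X.f (w 0) g) (w 1)) *
      pj X (X.f (w 0) g * pj X (X.f (w 0) g) (w 1) (unn ε X (X.f (w 0) g) (w 1))) (w 2)
        (stn ε X (X.f (w 0) g * pj X (X.f (w 0) g) (w 1) (unn ε X (X.f (w 0) g) (w 1))) (w 2)) := by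
    intro w
    unfold psN UbN SbN
    group
  rw [← E1 z, ← E1 z'] at key
  rw [show (g⁻¹ * psN ε X g z)⁻¹ * (g⁻¹ * psN ε X g z') = (psN ε X g z)⁻¹ * psN ε X g z' by group] at key
  have hd0 : 0 ≤ dist z z' := dist_nonneg
  refine ⟨key.1.trans (mul_le_mul_of_nonneg_right (by linarith) hd0), ?_⟩
  intro i j
  have k2 := key.2 i j
  have E2 : LM X g (stn ε X g r / r) (unn ε X g r / r) (z - z') i j = (z 0 - z' 0) * Xm X g i j +
      (z 1 - z' 1) * (!![0, bj X g 1 (unn ε X g r / r); cj X g 1 (unn ε X g r / r), 0] : Matrix (Fin 2) (Fin 2) ℝ) i j +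
      (z 2 - z' 2) * (!![0, bj X g 1 (stn ε X g r / r); cj X g 1 (stn ε X g r / r), 0] : Matrix (Fin 2) (Fin 2) ℝ) i j := by
    unfold LM Xm
    fin_cases i <;> fin_cases j <;> simp [Pi.sub_apply]
  rw [E2]
  refine k2.trans ?_
  refine mul_le_mul_of_nonneg_right (mul_le_mul_of_nonneg_right (by linarith) hr.le) hd0

end

end Pool.Agent.VNE
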